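import Mathlib
import Pool.Agent.ExScale.Ultra

/-!
# The ring of polynomially bounded germs and its residue field
-/

set_option autoImplicit false

namespace Pool.Agent.ExApx

open Filter Topology Pool.Agent.ExScale

lemma two_le_gm {Ω : ℕ → ℝ} (hΩ : ∀ n, 2 ≤ Ω n) : (2 : Hyperreal) ≤ gm Ω := by
  have h : (2 : Hyperreal) = gm (fun _ => 2) := rfl
  rw [h]
  exact Germ.coe_le.mpr (Eventually.of_forall hΩ)

/-- The comparison sequence. -/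
noncomputable def th (Ω : ℕ → ℝ) (β : ℕ → ℕ) (n : ℕ) : ℝ := Ω n ^ (β n + 1)

lemma le_th {Ω : ℕ → ℝ} (hΩ : ∀ n, 2 ≤ Ω n) (β : ℕ → ℕ) (n : ℕ) : Ω n ≤ th Ω β n :=
  le_self_pow₀ (by linarith [hΩ n]) (Nat.succ_ne_zero _)

lemma two_le_th {Ω : ℕ → ℝ} (hΩ : ∀ n, 2 ≤ Ω n) (β : ℕ → ℕ) (n : ℕ) : 2 ≤ th Ω β n :=
  (hΩ n).trans (le_th hΩ β n)

lemma pow_le_th {Ω : ℕ → ℝ} (hΩ : ∀ n, 2 ≤ Ω n) (β : ℕ → ℕ) (n m : ℕ) :
    Ω n ^ m ≤ th Ω β n ^ m :=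
  pow_le_pow_left₀ (by linarith [hΩ n]) (le_th hΩ β n) m

/-- The ring of germs bounded by powers of the comparison sequence. -/
noncomputable def O (Ω : ℕ → ℝ) (hΩ : ∀ n, 2 ≤ Ω n) (β : ℕ → ℕ) : Subring Hyperreal where
  carrier := {x | ∃ m : ℕ, |x| ≤ gm (th Ω β) ^ m}
  mul_mem' := by
    rintro x y ⟨m, hm⟩ ⟨k, hk⟩
    refine ⟨m + k, ?_⟩
    rw [abs_mul, pow_add]
    exact mul_le_mul hm hk (abs_nonneg _) ((abs_nonneg _).trans hm)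
  one_mem' := ⟨0, by simp⟩
  add_mem' := by
    rintro x y ⟨m, hm⟩ ⟨k, hk⟩
    refine ⟨m + k + 1, ?_⟩
    have h2 := two_le_gm (two_le_th hΩ β)
    have h1 : (1 : Hyperreal) ≤ gm (th Ω β) := le_trans (by norm_num) h2
    have h3 : gm (th Ω β) ^ m ≤ gm (th Ω β) ^ (m + k) := pow_le_pow_right₀ h1 (by omega)
    have h4 : gm (th Ω β) ^ k ≤ gm (th Ω β) ^ (m + k) := pow_le_pow_right₀ h1 (by omega)
    have h5 : (2 : Hyperreal) * gm (th Ω β) ^ (m + k) ≤ gm (th Ω β) ^ (m + k + 1) := by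
      rw [pow_succ, mul_comm]
      exact mul_le_mul_of_nonneg_left h2 (pow_nonneg (le_trans zero_le_one h1) _)
    refine (abs_add_le _ _).trans ?_
    linarith
  zero_mem' := ⟨0, by simp⟩
  neg_mem' := by
    rintro x ⟨m, hm⟩
    exact ⟨m, by rwa [abs_neg]⟩

/-- The ideal of germs smaller than every power. -/
noncomputable def mm (Ω : ℕ → ℝ) (hΩ : ∀ n, 2 ≤ Ω n) (β : ℕ → ℕ) : Ideal (O Ω hΩ β) where
  carrier := {x | ∀ m : ℕ, |(x : Hyperreal)| * gm (th Ω β) ^ m ≤ 1}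
  add_mem' := by
    intro x y hx hy m
    have h2 := two_le_gm (two_le_th hΩ β)
    have h0 : (0 : Hyperreal) ≤ gm (th Ω β) ^ m := pow_nonneg (le_trans (by norm_num) h2) _
    have h3 := hx (m + 1)
    have h4 := hy (m + 1)
    rw [pow_succ] at h3 h4
    have h5 : ∀ z : Hyperreal, |z| * (gm (th Ω β) ^ m * gm (th Ω β)) ≤ 1 → |z| * gm (th Ω β) ^ m ≤ 1 / 2 := by
      intro z hz
      have h6 : |z| * gm (th Ω β) ^ m * 2 ≤ |z| * gm (th Ω β) ^ m * gm (th Ω β) :=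
        mul_le_mul_of_nonneg_left h2 (mul_nonneg (abs_nonneg _) h0)
      rw [← mul_assoc] at hz
      linarith
    have h7 : |((x + y : O Ω hΩ β) : Hyperreal)| ≤ |(x : Hyperreal)| + |(y : Hyperreal)| := by
      rw [Subring.coe_add]
      exact abs_add_le _ _
    calc |((x + y : O Ω hΩ β) : Hyperreal)| * gm (th Ω β) ^ m
        ≤ (|(x : Hyperreal)| + |(y : Hyperreal)|) * gm (th Ω β) ^ m :=
          mul_le_mul_of_nonneg_right h7 h0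
      _ = |(x : Hyperreal)| * gm (th Ω β) ^ m + |(y : Hyperreal)| * gm (th Ω β) ^ m := by ring
      _ ≤ 1 / 2 + 1 / 2 := add_le_add (h5 _ h3) (h5 _ h4)
      _ = 1 := by norm_num
  zero_mem' := by
    intro m
    simp
  smul_mem' := by
    rintro ⟨c, k, hk⟩ x hx m
    have h2 := two_le_gm (two_le_th hΩ β)
    have h0 : ∀ m : ℕ, (0 : Hyperreal) ≤ gm (th Ω β) ^ m :=
      fun m => pow_nonneg (le_trans (by norm_num) h2) _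
    rw [smul_eq_mul, Subring.coe_mul, abs_mul]
    calc |c| * |(x : Hyperreal)| * gm (th Ω β) ^ m ≤ gm (th Ω β) ^ k * |(x : Hyperreal)| * gm (th Ω β) ^ m :=
          mul_le_mul_of_nonneg_right (mul_le_mul_of_nonneg_right hk (abs_nonneg _)) (h0 m)
      _ = |(x : Hyperreal)| * gm (th Ω β) ^ (k + m) := by rw [pow_add]; ring
      _ ≤ 1 := hx _

lemma mem_mm {Ω : ℕ → ℝ} {hΩ : ∀ n, 2 ≤ Ω n} {β : ℕ → ℕ} (x : O Ω hΩ β) :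
    x ∈ mm Ω hΩ β ↔ ∀ m : ℕ, |(x : Hyperreal)| * gm (th Ω β) ^ m ≤ 1 := Iff.rfl

instance mm_max (Ω : ℕ → ℝ) (hΩ : ∀ n, 2 ≤ Ω n) (β : ℕ → ℕ) : (mm Ω hΩ β).IsMaximal := by
  have h2 := two_le_gm (two_le_th hΩ β)
  have hpos : (0 : Hyperreal) < gm (th Ω β) := lt_of_lt_of_le (by norm_num) h2
  rw [Ideal.isMaximal_iff]
  constructor
  · intro h
    have h1 := (mem_mm _).mp h 1
    rw [Subring.coe_one, abs_one, one_mul, pow_one] at h1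
    have h3 : (2 : Hyperreal) ≤ 1 := h2.trans h1
    norm_num at h3
  · intro J x _ hx hxJ
    rw [mem_mm] at hx
    push Not at hx
    obtain ⟨m, hm⟩ := hx
    have hx0 : (x : Hyperreal) ≠ 0 := by
      intro h0
      rw [h0, abs_zero, zero_mul] at hm
      exact absurd hm (by norm_num)
    have hinv : |((x : Hyperreal))⁻¹| ≤ gm (th Ω β) ^ m := by
      rw [abs_inv]
      rw [inv_le_iff_one_le_mul₀ (abs_pos.mpr hx0)]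
      rw [mul_comm]
      exact hm.le
    have h3 : (1 : O Ω hΩ β) = ⟨((x : Hyperreal))⁻¹, m, hinv⟩ * x := by
      apply Subtype.ext
      rw [Subring.coe_one, Subring.coe_mul]
      exact (inv_mul_cancel₀ hx0).symm
    rw [h3]
    exact J.mul_mem_left _ hxJ

/-- The residue field. -/
abbrev kk (Ω : ℕ → ℝ) (hΩ : ∀ n, 2 ≤ Ω n) (β : ℕ → ℕ) : Type := O Ω hΩ β ⧸ mm Ω hΩ β

noncomputable instance (Ω : ℕ → ℝ) (hΩ : ∀ n, 2 ≤ Ω n) (β : ℕ → ℕ) : Field (kk Ω hΩ β) :=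
  Ideal.Quotient.field (mm Ω hΩ β)

lemma gm_mem_O' {Ω : ℕ → ℝ} (hΩ : ∀ n, 2 ≤ Ω n) (β : ℕ → ℕ) (x : ℕ → ℝ) (m : ℕ)
    (h : ∀ᶠ n in U, |x n| ≤ th Ω β n ^ m) : gm x ∈ O Ω hΩ β := by
  refine ⟨m, ?_⟩
  have h1 : gm (th Ω β) ^ m = gm (fun n => th Ω β n ^ m) := (gm_pow (th Ω β) m).symm
  have h2 : |gm x| = gm (fun n => |x n|) := rfl
  rw [h1, h2]
  exact Germ.coe_le.mpr h

lemma gm_mem_O {Ω : ℕ → ℝ} (hΩ : ∀ n, 2 ≤ Ω n) (β : ℕ → ℕ) (x : ℕ → ℝ) (m : ℕ)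
    (h : ∀ᶠ n in U, |x n| ≤ Ω n ^ m) : gm x ∈ O Ω hΩ β := by
  apply gm_mem_O' hΩ β x m
  filter_upwards [h] with n hn
  exact hn.trans (pow_le_th hΩ β n m)

lemma K0_le_O {Ω : ℕ → ℝ} (hΩ : ∀ n, 2 ≤ Ω n) (β : ℕ → ℕ) (x : K0 Ω hΩ) :
    (x : Hyperreal) ∈ O Ω hΩ β := by
  obtain ⟨x, a, b, ⟨m, hm⟩, -, hb0, rfl⟩ := x
  apply gm_mem_O hΩ β _ m
  filter_upwards [hm, hb0] with n h3 h4
  rw [abs_div]
  have h5 : (1 : ℝ) ≤ |(b n : ℝ)| := by exact_mod_cast Int.one_le_abs h4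
  exact (div_le_self (abs_nonneg _) h5).trans h3

/-- The inclusion of the bounded rational germs. -/
noncomputable def incl (Ω : ℕ → ℝ) (hΩ : ∀ n, 2 ≤ Ω n) (β : ℕ → ℕ) : K0 Ω hΩ →+* O Ω hΩ β where
  toFun x := ⟨x, K0_le_O hΩ β x⟩
  map_one' := rfl
  map_mul' _ _ := rfl
  map_zero' := rfl
  map_add' _ _ := rfl

noncomputable instance (Ω : ℕ → ℝ) (hΩ : ∀ n, 2 ≤ Ω n) (β : ℕ → ℕ) : Algebra (K0 Ω hΩ) (O Ω hΩ β) :=
  (incl Ω hΩ β).toAlgebra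

/-- Reduction. -/
noncomputable def red (Ω : ℕ → ℝ) (hΩ : ∀ n, 2 ≤ Ω n) (β : ℕ → ℕ) : O Ω hΩ β →ₐ[K0 Ω hΩ] kk Ω hΩ β :=
  Ideal.Quotient.mkₐ (K0 Ω hΩ) (mm Ω hΩ β)

/-- Inclusion into the hyperreals. -/
noncomputable def vl (Ω : ℕ → ℝ) (hΩ : ∀ n, 2 ≤ Ω n) (β : ℕ → ℕ) : O Ω hΩ β →ₐ[K0 Ω hΩ] Hyperreal where
  toRingHom := (O Ω hΩ β).subtype
  commutes' _ := rfl

lemma red_eq_zero {Ω : ℕ → ℝ} {hΩ : ∀ n, 2 ≤ Ω n} {β : ℕ → ℕ} (x : O Ω hΩ β) :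
    red Ω hΩ β x = 0 ↔ ∀ m : ℕ, |(x : Hyperreal)| * gm (th Ω β) ^ m ≤ 1 := by
  rw [← mem_mm]
  exact Ideal.Quotient.eq_zero_iff_mem

/-- Elements of residue zero are smaller than every power. -/
lemma small_iff {Ω : ℕ → ℝ} {hΩ : ∀ n, 2 ≤ Ω n} {β : ℕ → ℕ} (x : ℕ → ℝ)
    (hx : gm x ∈ O Ω hΩ β) :
    red Ω hΩ β ⟨gm x, hx⟩ = 0 ↔ ∀ m : ℕ, ∀ᶠ n in U, |x n| * th Ω β n ^ m ≤ 1 := by
  rw [red_eq_zero]
  apply forall_congr'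
  intro m
  have h1 : gm (th Ω β) ^ m = gm (fun n => th Ω β n ^ m) := (gm_pow (th Ω β) m).symm
  have h2 : |gm x| = gm (fun n => |x n|) := rfl
  change |gm x| * gm (th Ω β) ^ m ≤ 1 ↔ _
  rw [h1, h2, ← gm_mul]
  exact Germ.coe_le (g := fun _ => (1:ℝ))

lemma small_Ω {Ω : ℕ → ℝ} (hΩ : ∀ n, 2 ≤ Ω n) {β : ℕ → ℕ} (x : ℕ → ℝ)
    (h : ∀ m : ℕ, ∀ᶠ n in U, |x n| * th Ω β n ^ m ≤ 1) (m : ℕ) :
    ∀ᶠ n in U, |x n| * Ω n ^ m ≤ 1 := by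
  filter_upwards [h m] with n hn
  exact (mul_le_mul_of_nonneg_left (pow_le_th hΩ β n m) (abs_nonneg _)).trans hn

end Pool.Agent.ExApx
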