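import Mathlib
import Pool.Agent.ExScale.AlgI
import Pool.Agent.ExApx.Res

/-!
# Algebraic independence of near-one logarithms in the residue field
-/

set_option autoImplicit false

namespace Pool.Agent.ExApx

open Filter Topology Pool.Agent.Results.MP_bbc1fa_nt Pool.Agent.ExScale

/-- Logarithms of near-one rationals are bounded. -/
lemma log_bd {Ω : ℕ → ℝ} (hΩ : ∀ n, 2 ≤ Ω n) (hlim : Tendsto Ω atTop atTop) {δ : ℝ} (hδ : 0 < δ)
    (g : ℕ → ℚ) (hclose : ∀ n, |(g n : ℝ) - 1| ≤ Ω n ^ (-δ)) :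
    ∀ᶠ n in U, |Real.log (g n)| ≤ Ω n ^ 0 := by
  have hhalf : ∀ᶠ n in U, Ω n ^ (-δ) ≤ 1 / 2 := by
    have h1 : Tendsto (fun n => Ω n ^ (-δ)) atTop (𝓝 0) :=
      (tendsto_rpow_neg_atTop hδ).comp hlim
    exact (h1.eventually_le_const (by norm_num)).filter_mono Nat.hyperfilter_le_atTop
  filter_upwards [hhalf] with n hn
  have h1 := (abs_le.mp ((hclose n).trans hn))
  have h2 : (1 : ℝ) / 2 ≤ g n := by linarith [h1.1]
  have h3 : (g n : ℝ) ≤ 3 / 2 := by linarith [h1.2]
  have hpos : (0 : ℝ) < g n := by linarith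
  rw [pow_zero, abs_le]
  constructor
  · have h4 := Real.one_sub_inv_le_log_of_pos hpos
    have h5 : ((g n : ℝ))⁻¹ ≤ 2 := by
      rw [inv_le_comm₀ hpos (by norm_num)]
      linarith
    linarith
  · have h4 := Real.log_le_sub_one_of_pos hpos
    linarith

theorem algIndep_fin (s : ℕ) (Ω : ℕ → ℝ) (hΩ : ∀ n, 2 ≤ Ω n) (β' : ℕ → ℕ) (hlim : Tendsto Ω atTop atTop)
    (δ : ℝ) (hδ : 0 < δ) (g : Fin s → ℕ → ℚ) (hg : ∀ i n, 0 < g i n)
    (hden : ∀ i n, ((g i n).den : ℝ) ≤ Ω n) (hclose : ∀ i n, |(g i n : ℝ) - 1| ≤ Ω n ^ (-δ))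
    (hind : ∀ᶠ n in U, ∀ e : Fin s → ℤ, ∏ i, g i n ^ e i = 1 → e = 0)
    (x : Fin s → O Ω hΩ β') (hx : ∀ i, (x i : Hyperreal) = gm (fun n => Real.log (g i n))) :
    AlgebraicIndependent (K0 Ω hΩ) (fun i => red Ω hΩ β' (x i)) := by
  classical
  rw [algebraicIndependent_iff]
  intro p hp
  by_contra hne
  obtain ⟨α₀, hα₀⟩ := MvPolynomial.ne_zero_iff.mp hne
  have hα₀s : α₀ ∈ p.support := MvPolynomial.mem_support_iff.mpr hα₀
  choose a b ha hb hb0 hab using fun α => (MvPolynomial.coeff α p).2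
  let D : ℕ → ℤ := fun n => ∏ β ∈ p.support, b β n
  have hD : Bdd Ω D := Bdd.prod _ (fun β => hb β)
  let A : (Fin s →₀ ℕ) → ℕ → ℤ := fun α n => a α n * ∏ β ∈ p.support.erase α, b β n
  have hA : ∀ α, Bdd Ω (A α) := fun α => (ha α).mul (Bdd.prod _ (fun β => hb β))
  obtain ⟨m, hm⟩ := exists_common_bound p.support Ω hΩ A hA
  let F : ℕ → MvPolynomial (Fin s) ℤ := fun n => ∑ α ∈ p.support, MvPolynomial.monomial α (A α n)
  have hFcoeff : ∀ n α, MvPolynomial.coeff α (F n) = if α ∈ p.support then A α n else 0 := by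
    intro n α
    simp only [F, MvPolynomial.coeff_sum, MvPolynomial.coeff_monomial]
    rw [Finset.sum_ite_eq' p.support α]
  have hFdeg : ∀ n, (F n).totalDegree ≤ p.totalDegree := by
    intro n
    apply Finset.sup_mono
    intro α hα
    rw [MvPolynomial.mem_support_iff, hFcoeff] at hα
    by_contra h
    rw [if_neg h] at hα
    exact hα rfl
  have haeval : ∀ n (x : Fin s → ℝ), MvPolynomial.aeval x (F n) =
      ∑ α ∈ p.support, (A α n : ℝ) * ∏ i, x i ^ (α i) := by
    intro n x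
    simp only [F, map_sum, MvPolynomial.aeval_monomial]
    apply Finset.sum_congr rfl
    intro α _
    rw [Finsupp.prod_fintype _ _ (fun i => pow_zero _)]
    rfl
  -- the germ of the values
  have h1 : gm (fun n => MvPolynomial.aeval (fun i => Real.log (g i n)) (F n)) =
      gm (fun n => (D n : ℝ)) *
        MvPolynomial.aeval (fun i => gm (fun n => Real.log (g i n))) p := by
    rw [MvPolynomial.aeval_def, MvPolynomial.eval₂_eq', Finset.mul_sum]
    simp only [haeval]
    rw [gm_sum]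
    apply Finset.sum_congr rfl
    intro α hα
    rw [gm_mul, gm_prod, ← mul_assoc]
    congr 1
    · change _ = _ * ((MvPolynomial.coeff α p : K0 Ω hΩ) : Hyperreal)
      rw [hab α, ← gm_mul, gm_eq_iff]
      filter_upwards [hb0 α] with n hn
      have hn' : (b α n : ℝ) ≠ 0 := by exact_mod_cast hn
      simp only [A, D]
      rw [← Finset.mul_prod_erase p.support (fun β => b β n) hα]
      push_cast
      field_simp
  -- the value in the ring of bounded germs
  let z : O Ω hΩ β' := MvPolynomial.aeval x p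
  have hz1 : red Ω hΩ β' z = 0 := by
    have h2 : red Ω hΩ β' z = MvPolynomial.aeval (fun i => red Ω hΩ β' (x i)) p := by
      have h3 := MvPolynomial.comp_aeval_apply (B := kk Ω hΩ β') x (red Ω hΩ β') p
      exact h3
    rw [h2]
    exact hp
  have hz2 : (z : Hyperreal) = MvPolynomial.aeval (fun i => gm (fun n => Real.log (g i n))) p := by
    have h3 := MvPolynomial.comp_aeval_apply (B := Hyperreal) x (vl Ω hΩ β') p
    have h4 : (fun i => (vl Ω hΩ β') (x i)) = fun i => gm (fun n => Real.log (g i n)) := by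
      funext i
      exact hx i
    rw [h4] at h3
    exact h3
  obtain ⟨d, hd⟩ := hD
  have hDO : gm (fun n => (D n : ℝ)) ∈ O Ω hΩ β' := gm_mem_O hΩ β' _ d hd
  have hgmem : gm (fun n => MvPolynomial.aeval (fun i => Real.log (g i n)) (F n)) ∈ O Ω hΩ β' := by
    rw [h1, ← hz2]
    exact (O Ω hΩ β').mul_mem hDO z.2
  have hgm : ∀ k : ℕ, ∀ᶠ n in U,
      |MvPolynomial.aeval (fun i => Real.log (g i n)) (F n)| * Ω n ^ k ≤ 1 := by
    apply small_Ω hΩ (β := β')
    rw [← small_iff _ hgmem]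
    have h5 : (⟨_, hgmem⟩ : O Ω hΩ β') = ⟨_, hDO⟩ * z := by
      apply Subtype.ext
      rw [Subring.coe_mul, hz2]
      exact h1
    rw [h5, map_mul, hz1, mul_zero]
  obtain ⟨C, H₀, hmain⟩ := AlgIndepNearOne.result s p.totalDegree δ m hδ
  obtain ⟨C', hC'⟩ := exists_nat_gt C
  have hlarge : ∀ᶠ n in U, H₀ ≤ Ω n :=
    (hlim.eventually_ge_atTop H₀).filter_mono Nat.hyperfilter_le_atTop
  have hA0 : ∀ᶠ n in U, a α₀ n = 0 := by
    have hb' : ∀ᶠ n in U, ∀ β ∈ p.support, b β n ≠ 0 := by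
      rw [Filter.eventually_all_finset]
      intro β _
      exact hb0 β
    filter_upwards [hgm C', hlarge, hm, hind, hb'] with n h1 h2 h3 h4 h5
    have hΩpos : 0 < Ω n := by linarith [hΩ n]
    have h6 : ∀ x : Fin s → ℝ, MvPolynomial.aeval x (F n) = 0 := by
      intro x
      apply hmain (Ω n) h2 (fun i => g i n) (F n) (fun i => hg i n) (fun i => hden i n)
        (fun i => hclose i n) (hFdeg n)
      · intro α
        rw [hFcoeff, Real.rpow_natCast]
        split_ifs with hα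
        · exact h3 α hα
        · simp only [Int.cast_zero, abs_zero]; positivity
      · have h7 : Ω n ^ C < Ω n ^ C' := by
          rw [← Real.rpow_natCast]
          exact Real.rpow_lt_rpow_of_exponent_lt (by linarith [hΩ n]) hC'
        have h8 : 0 < Ω n ^ C := Real.rpow_pos_of_pos hΩpos _
        have h9 : 0 < Ω n ^ C' := h8.trans h7
        rw [Real.rpow_neg hΩpos.le]
        calc |MvPolynomial.aeval (fun i => Real.log (g i n)) (F n)| ≤ (Ω n ^ C')⁻¹ := by
              rw [← one_div, le_div_iff₀ h9]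
              exact h1
          _ < (Ω n ^ C)⁻¹ := inv_strictAnti₀ h8 h7
      · intro e he
        rw [h4 e he]
        simp
    have h7 : F n = 0 := by
      apply MvPolynomial.funext
      intro x
      have h8 := h6 (fun i => (x i : ℝ))
      have h9 : MvPolynomial.aeval (fun i => (x i : ℝ)) (F n) =
          ((MvPolynomial.eval x (F n) : ℤ) : ℝ) := by
        have h10 : (fun i => (x i : ℝ)) = (algebraMap ℤ ℝ) ∘ x := by
          funext i; simp
        rw [h10, MvPolynomial.aeval_algebraMap_apply]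
        simp [MvPolynomial.aeval_eq_eval]
      rw [h9] at h8
      rw [map_zero]
      exact_mod_cast h8
    have h8 := hFcoeff n α₀
    rw [h7, if_pos hα₀s, MvPolynomial.coeff_zero] at h8
    have h9 : ∏ β ∈ p.support.erase α₀, b β n ≠ 0 :=
      Finset.prod_ne_zero_iff.mpr (fun β hβ => h5 β (Finset.mem_of_mem_erase hβ))
    exact (mul_eq_zero.mp h8.symm).resolve_right h9
  apply hα₀
  have h10 := hab α₀
  have h11 : gm (fun n => (a α₀ n : ℝ) / (b α₀ n : ℝ)) = 0 := by
    rw [← gm_zero, gm_eq_iff]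
    filter_upwards [hA0] with n hn
    rw [hn]
    simp
  rw [h11] at h10
  exact Subtype.ext h10

theorem algIndep_kk {ι : Type*} [Fintype ι] (Ω : ℕ → ℝ) (hΩ : ∀ n, 2 ≤ Ω n) (β' : ℕ → ℕ)
    (hlim : Tendsto Ω atTop atTop)
    (δ : ℝ) (hδ : 0 < δ) (g : ι → ℕ → ℚ) (hg : ∀ i n, 0 < g i n)
    (hden : ∀ i n, ((g i n).den : ℝ) ≤ Ω n) (hclose : ∀ i n, |(g i n : ℝ) - 1| ≤ Ω n ^ (-δ))
    (hind : ∀ᶠ n in U, ∀ e : ι → ℤ, ∏ i, g i n ^ e i = 1 → e = 0)
    (x : ι → O Ω hΩ β') (hx : ∀ i, (x i : Hyperreal) = gm (fun n => Real.log (g i n))) :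
    AlgebraicIndependent (K0 Ω hΩ) (fun i => red Ω hΩ β' (x i)) := by
  let φ := Fintype.equivFin ι
  have h1 := algIndep_fin (Fintype.card ι) Ω hΩ β' hlim δ hδ (fun i => g (φ.symm i))
    (fun i n => hg _ n) (fun i n => hden _ n) (fun i n => hclose _ n) (by
      filter_upwards [hind] with n hn e he
      have h2 := hn (fun i => e (φ i)) (by
        rw [← he, ← Equiv.prod_comp φ.symm (fun i => g i n ^ e (φ i))]
        simp)
      funext i
      have := congrFun h2 (φ.symm i)
      simpa using this) (fun i => x (φ.symm i)) (fun i => hx _)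
  have h2 := h1.comp φ φ.injective
  have h3 : (fun i => red Ω hΩ β' (x (φ.symm i))) ∘ φ = fun i => red Ω hΩ β' (x i) := by
    funext i
    simp
  rwa [h3] at h2

end Pool.Agent.ExApx
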