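import Mathlib
import Pool.Agent.ExScale.Core
import Pool.Agent.ExApx.CoordsR

/-!
# At most `t` independent nearly singular matrices over `t` bases
-/

set_option autoImplicit false

namespace Pool.Agent.ExApx

open Filter Topology Pool.Agent.OneClass Pool.Agent.ExScale

/-- `t + 1` independent nearly singular matrices over `t` bases at scale `H`. -/
structure Syst (t R : ℕ) (δ A : ℝ) (N : ℕ) where
  H : ℝ
  d : ℕ
  ℓ : Fin t → ℝ
  G : Fin R → ℚ
  c : Fin (t + 1) → Fin 2 → Fin 2 → Fin t → ℤ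
  m : Fin (t + 1) → Fin 2 → Fin 2 → Fin R → ℤ
  M : Fin (t + 1) → Matrix (Fin 2) (Fin 2) ℝ
  pos : ∀ k, 0 < G k
  den : ∀ k, ((G k).den : ℝ) ≤ H
  close : ∀ k, |(G k : ℝ) - 1| ≤ H ^ (-δ)
  lb : ∀ s, |ℓ s| ≤ H ^ d
  cb : ∀ i a b s, |(c i a b s : ℝ)| ≤ H ^ A
  mb : ∀ i a b k, |(m i a b k : ℝ)| ≤ H ^ A
  hM : ∀ i a b, M i a b = ∑ s, (c i a b s : ℝ) * ℓ s + ∑ k, (m i a b k : ℝ) * Real.log (G k)
  row : ∀ i, RowsIndep (M i)
  col : ∀ i, RowsIndep (M i).transpose
  det : ∀ i, |(M i).det| < H ^ (-((N * (d + 1) : ℕ) : ℝ))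
  ne : ∀ i, ∃ p : Fin 2 × Fin 2, ∑ k, (m i p.1 p.2 k : ℝ) * Real.log (G k) ≠ 0
  dir : ∀ N : Fin (t + 1) → Fin 2 × Fin 2 → ℤ,
    ∑ i, ∑ p, (N i p : ℝ) * ∑ k, (m i p.1 p.2 k : ℝ) * Real.log (G k) = 0 →
    ∀ i, ∑ p, (N i p : ℝ) * ∑ k, (m i p.1 p.2 k : ℝ) * Real.log (G k) = 0
  lin : ∀ k : Fin t → ℤ, (∀ s, |(k s : ℝ)| ≤ H ^ (N : ℝ)) → |∑ s, (k s : ℝ) * ℓ s| < H ^ (-(d : ℝ)) →
    ∑ s, (k s : ℝ) * ℓ s = 0

/-- the near-one part of an entry -/
noncomputable def Syst.near {t R : ℕ} {δ A : ℝ} {N : ℕ} (D : Syst t R δ A N) (i : Fin (t + 1))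
    (p : Fin 2 × Fin 2) : ℝ := ∑ k, (D.m i p.1 p.2 k : ℝ) * Real.log (D.G k)

theorem sys_false (t R : ℕ) (δ A : ℝ) (hδ : 0 < δ) (D : ∀ n : ℕ, Syst t R δ A n)
    (hΩn : ∀ n : ℕ, (n:ℝ) + 2 ≤ (D n).H) : False := by
  classical
  let Ω : ℕ → ℝ := fun n => (D n).H
  have hΩ : ∀ n, 2 ≤ Ω n := fun n => by
    have h1 := hΩn n
    have h2 : (0:ℝ) ≤ n := Nat.cast_nonneg n
    linarith
  have hΩ0 : ∀ n, 0 < Ω n := fun n => by linarith [hΩ n]
  let β' : ℕ → ℕ := fun n => (D n).d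
  have hth0 : ∀ n, 0 < th Ω β' n := fun n => by linarith [two_le_th hΩ β' n]
  have hlim : Tendsto Ω atTop atTop := by
    exact tendsto_atTop_mono (fun n : ℕ => (by linarith [hΩn n] : (n:ℝ) ≤ Ω n))
      tendsto_natCast_atTop_atTop
  let xx : Fin R → O Ω hΩ β' := fun k => ⟨gm (fun n => Real.log ((D n).G k)),
    gm_mem_O hΩ β' _ 0 (log_bd hΩ hlim hδ (fun n => (D n).G k) (fun n => (D n).close k))⟩
  obtain ⟨J₀, q, hAI, hq⟩ := coords Ω hΩ β' hlim δ hδ (fun n => (D n).G) (fun n => (D n).pos)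
    (fun n => (D n).den) (fun n => (D n).close) xx (fun k => rfl)
  -- bounded integers
  obtain ⟨A', hA'⟩ := exists_nat_ge (max A 0)
  have hpow : ∀ n, Ω n ^ A ≤ Ω n ^ A' := by
    intro n
    have h1 : Ω n ^ A ≤ Ω n ^ (A' : ℝ) :=
      Real.rpow_le_rpow_of_exponent_le (by linarith [hΩ n]) ((le_max_left _ _).trans hA')
    rwa [Real.rpow_natCast] at h1
  have hcB : ∀ i a b s, Bdd Ω (fun n => (D n).c i a b s) := fun i a b s =>
    ⟨A', Eventually.of_forall (fun n => ((D n).cb i a b s).trans (hpow n))⟩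
  have hcK : ∀ i a b s, gm (fun n => ((D n).c i a b s : ℝ)) ∈ K0 Ω hΩ := fun i a b s =>
    int_mem_K0 hΩ (hcB i a b s)
  have hmK : ∀ i a b k, gm (fun n => ((D n).m i a b k : ℝ)) ∈ K0 Ω hΩ := fun i a b k =>
    int_mem_K0 hΩ ⟨A', Eventually.of_forall (fun n => ((D n).mb i a b k).trans (hpow n))⟩
  let lo : Fin t → O Ω hΩ β' := fun s => ⟨gm (fun n => (D n).ℓ s),
    gm_mem_O' hΩ β' _ 1 (Eventually.of_forall (fun n => by
      rw [pow_one]
      exact ((D n).lb s).trans (pow_le_pow_right₀ (by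
        have := hΩ n
        change 1 ≤ (D n).H
        change 2 ≤ (D n).H at this
        linarith) (Nat.le_succ _))))⟩
  -- the near-one parts
  let Y : Fin (t + 1) → Fin 2 × Fin 2 → Hyperreal := fun i p => gm (fun n => (D n).near i p)
  let X : J₀ → Hyperreal := fun j => gm (fun n => Real.log ((D n).G j))
  let u : Fin (t + 1) → Fin 2 × Fin 2 → J₀ → K0 Ω hΩ := fun i p j =>
    ∑ k, (⟨_, hmK i p.1 p.2 k⟩ : K0 Ω hΩ) * q k j
  have hYX : ∀ i p, Y i p = ∑ j, u i p j • X j := by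
    intro i p
    calc Y i p = ∑ k, gm (fun n => ((D n).m i p.1 p.2 k : ℝ)) * gm (fun n => Real.log ((D n).G k)) := by
          simp only [Y, Syst.near]
          rw [gm_sum]
          rfl
      _ = ∑ k, ∑ j, ((⟨_, hmK i p.1 p.2 k⟩ : K0 Ω hΩ) * q k j) • X j := by
          apply Finset.sum_congr rfl
          intro k _
          rw [hq, Finset.mul_sum]
          apply Finset.sum_congr rfl
          intro j _
          rw [mul_smul]
          rfl
      _ = ∑ j, u i p j • X j := by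
          rw [Finset.sum_comm]
          apply Finset.sum_congr rfl
          intro j _
          rw [← Finset.sum_smul]
  have hYO : ∀ i p, Y i p ∈ O Ω hΩ β' := by
    intro i p
    rw [hYX]
    apply (O Ω hΩ β').sum_mem
    intro j _
    exact (O Ω hΩ β').mul_mem (K0_le_O hΩ β' (u i p j)) (xx j).2
  let Yo : Fin (t + 1) → Fin 2 × Fin 2 → O Ω hΩ β' := fun i p => ⟨Y i p, hYO i p⟩
  have hYoX : ∀ i p, Yo i p = ∑ j, u i p j • xx j := by
    intro i p
    have hinj : Function.Injective (vl Ω hΩ β') := Subtype.val_injective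
    apply hinj
    rw [map_sum]
    change Y i p = _
    rw [hYX]
    apply Finset.sum_congr rfl
    intro j _
    rw [map_smul]
    rfl
  -- bases of the spans of the near-one parts
  have hbas : ∀ i, ∃ I : Finset (Fin 2 × Fin 2), LinearIndepOn (K0 Ω hΩ) (Y i) (I : Set _) ∧
      ∀ p, ∃ e : I → K0 Ω hΩ, Y i p = ∑ x, e x • Y i x := by
    intro i
    obtain ⟨b, -, -, hb1, hb2⟩ := exists_linearIndepOn_extension (K := K0 Ω hΩ)
      (v := Y i) (linearIndepOn_empty (K0 Ω hΩ) _) (Set.empty_subset (Set.univ))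
    refine ⟨b.toFinset, ?_, fun p => ?_⟩
    · rw [Set.coe_toFinset]
      exact hb2
    · have h1 : Y i p ∈ Submodule.span (K0 Ω hΩ) (Set.range fun x : b.toFinset => Y i x) := by
        have h2 : (Set.range fun x : b.toFinset => Y i x) = Y i '' b := by
          ext y
          constructor
          · rintro ⟨⟨x, hx⟩, rfl⟩
            exact ⟨x, Set.mem_toFinset.mp hx, rfl⟩
          · rintro ⟨x, hx, rfl⟩
            exact ⟨⟨x, Set.mem_toFinset.mpr hx⟩, rfl⟩
        rw [h2]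
        exact hb1 ⟨p, Set.mem_univ _, rfl⟩
      obtain ⟨e, he⟩ := (Submodule.mem_span_range_iff_exists_fun (K0 Ω hΩ)).mp h1
      exact ⟨e, he.symm⟩
  choose I hI1 hI2 using hbas
  let YI : (Σ i, I i) → Hyperreal := fun p => Y p.1 p.2
  have hYind : LinearIndependent (K0 Ω hΩ) YI := by
    rw [Fintype.linearIndependent_iff]
    intro lam hlam
    choose a b ha hb hb0 hab using fun p => (lam p).2
    have hb0' : ∀ᶠ n in U, ∀ p, b p n ≠ 0 := by
      rw [Filter.eventually_all]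
      exact hb0
    have hsum : ∀ᶠ n in U, ∑ p : (Σ i, I i), ((a p n : ℝ) / (b p n : ℝ)) * (D n).near p.1 p.2 =
        0 := by
      rw [← gm_eq_iff (fun n => ∑ p : (Σ i, I i), ((a p n : ℝ) / (b p n : ℝ)) * (D n).near p.1 p.2)
        (fun _ => 0), gm_zero, gm_sum, ← hlam]
      apply Finset.sum_congr rfl
      intro p _
      rw [gm_mul, ← hab p]
      rfl
    have hpart : ∀ i, ∑ x : I i, lam ⟨i, x⟩ • Y i x = 0 := by
      intro i
      have h1 : ∑ x : I i, lam ⟨i, x⟩ • Y i x =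
          gm (fun n => ∑ x : I i, ((a ⟨i, x⟩ n : ℝ) / (b ⟨i, x⟩ n : ℝ)) * (D n).near i x) := by
        rw [gm_sum]
        apply Finset.sum_congr rfl
        intro x _
        rw [gm_mul, ← hab ⟨i, x⟩]
        rfl
      rw [h1, ← gm_zero, gm_eq_iff]
      filter_upwards [hb0', hsum] with n h2 h3
      let N : Fin (t + 1) → Fin 2 × Fin 2 → ℤ := fun i p =>
        if h : p ∈ I i then a ⟨i, ⟨p, h⟩⟩ n *
          ∏ y ∈ Finset.univ.erase (⟨i, ⟨p, h⟩⟩ : (Σ i, I i)), b y n else 0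
      have hN : ∀ i, ∑ p, (N i p : ℝ) * (D n).near i p =
          ((∏ y, b y n : ℤ) : ℝ) *
            ∑ x : I i, ((a ⟨i, x⟩ n : ℝ) / (b ⟨i, x⟩ n : ℝ)) * (D n).near i x := by
        intro i
        rw [← Finset.sum_subset (Finset.subset_univ (I i)) (fun p _ hp => by
          simp only [N, dif_neg hp, Int.cast_zero, zero_mul]), ← Finset.sum_coe_sort (I i),
          Finset.mul_sum]
        apply Finset.sum_congr rfl
        rintro ⟨p, hp⟩ _
        have h4 := clear (fun y : (Σ i, I i) => a y n) (fun y => b y n) h2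
          (fun y => (D n).near y.1 y.2) {⟨i, ⟨p, hp⟩⟩}
        rw [Finset.sum_singleton, Finset.sum_singleton] at h4
        simp only [N, dif_pos hp]
        exact h4
      have h4 := (D n).dir N (by
        change ∑ i, ∑ p, (N i p : ℝ) * (D n).near i p = 0
        simp only [hN]
        rw [← Finset.mul_sum]
        have h5 : ∑ i, ∑ x : I i, ((a ⟨i, x⟩ n : ℝ) / (b ⟨i, x⟩ n : ℝ)) * (D n).near i x =
            ∑ p : (Σ i, I i), ((a p n : ℝ) / (b p n : ℝ)) * (D n).near p.1 p.2 := by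
          rw [Fintype.sum_sigma]
        rw [h5, h3, mul_zero]) i
      have h5 : ∑ p, (N i p : ℝ) * (D n).near i p = 0 := h4
      rw [hN] at h5
      refine (mul_eq_zero.mp h5).resolve_left ?_
      exact_mod_cast Finset.prod_ne_zero_iff.mpr (fun y _ => h2 y)
    rintro ⟨i, x⟩
    exact Fintype.linearIndependent_iff.mp (hI1 i) (fun x => lam ⟨i, x⟩) (hpart i) x
  -- residues of the near-one parts
  let YR : (Σ i, I i) → kk Ω hΩ β' := fun p => red Ω hΩ β' (Yo p.1 p.2)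
  have hYRX : ∀ p : (Σ i, I i), YR p = ∑ j, u p.1 p.2 j • red Ω hΩ β' (xx j) := by
    intro p
    simp only [YR]
    rw [hYoX, map_sum]
    apply Finset.sum_congr rfl
    intro j _
    rw [map_smul]
  have hYRind : LinearIndependent (K0 Ω hΩ) YR := by
    rw [Fintype.linearIndependent_iff]
    intro lam hlam
    have h1 : ∑ j, (∑ p, lam p * u p.1 p.2 j) • red Ω hΩ β' (xx j) = 0 := by
      rw [← hlam]
      simp only [hYRX, Finset.smul_sum, smul_smul, Finset.sum_smul]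
      rw [Finset.sum_comm]
    have h2 := Fintype.linearIndependent_iff.mp hAI.linearIndependent _ h1
    apply Fintype.linearIndependent_iff.mp hYind lam
    have h3 : ∀ p : (Σ i, I i), YI p = ∑ j, u p.1 p.2 j • X j := fun p => hYX _ _
    simp only [h3, Finset.smul_sum, smul_smul]
    rw [Finset.sum_comm]
    simp only [← Finset.sum_smul, h2, zero_smul, Finset.sum_const_zero]
  have hAI2 : AlgebraicIndependent (K0 Ω hΩ) YR :=
    alg_lin (K := K0 Ω hΩ) (E := kk Ω hΩ β') (fun j : J₀ => red Ω hΩ β' (xx j)) hAI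
      (fun p : (Σ i, I i) => u p.1 p.2) YR hYRX hYRind
  obtain ⟨i, S, hS1, hS2, hS3⟩ := exists_indep_over (K := K0 Ω hΩ) (E := kk Ω hΩ β')
    (fun s => red Ω hΩ β' (lo s)) (J := fun i => I i) YR hAI2
  choose e he using hI2 i
  have heo : ∀ p, Yo i p = ∑ x, e p x • Yo i x := by
    intro p
    have hinj : Function.Injective (vl Ω hΩ β') := Subtype.val_injective
    apply hinj
    rw [map_sum]
    change Y i p = _
    rw [he]
    apply Finset.sum_congr rfl
    intro x _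
    rw [map_smul]
    rfl
  -- the pure parts
  let Lo : Fin 2 → Fin 2 → O Ω hΩ β' := fun a b =>
    ∑ s, (⟨_, hcK i a b s⟩ : K0 Ω hΩ) • lo s
  have hLoval : ∀ a b, ((Lo a b : O Ω hΩ β') : Hyperreal) =
      gm (fun n => ∑ s, ((D n).c i a b s : ℝ) * (D n).ℓ s) := by
    intro a b
    have h1 : vl Ω hΩ β' (Lo a b) = ∑ s, vl Ω hΩ β' ((⟨_, hcK i a b s⟩ : K0 Ω hΩ) • lo s) :=
      map_sum _ _ _
    change vl Ω hΩ β' (Lo a b) = _
    rw [h1, gm_sum]
    apply Finset.sum_congr rfl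
    intro s _
    rw [map_smul, gm_mul]
    rfl
  let L : Matrix (Fin 2) (Fin 2) (kk Ω hΩ β') := fun a b => red Ω hΩ β' (Lo a b)
  have hLS : ∀ a b, L a b ∈ S := by
    intro a b
    simp only [L, Lo]
    rw [map_sum]
    apply S.sum_mem
    intro s _
    rw [map_smul, Algebra.smul_def]
    exact S.mul_mem (hS2 _) (hS1 s)
  let Mo : Fin 2 → Fin 2 → O Ω hΩ β' := fun a b => Lo a b + Yo i (a, b)
  have hMo : ∀ a b, ((Mo a b : O Ω hΩ β') : Hyperreal) = gm (fun n => (D n).M i a b) := by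
    intro a b
    simp only [Mo]
    rw [Subring.coe_add, hLoval]
    change _ + Y i (a, b) = _
    simp only [Y, Syst.near]
    rw [← gm_add]
    congr 1
    funext n
    exact ((D n).hM i a b).symm
  -- the determinant as a polynomial over `S`
  let P : Fin 2 → Fin 2 → MvPolynomial (I i) S := fun a b =>
    MvPolynomial.C ⟨L a b, hLS a b⟩ +
      ∑ x : I i, MvPolynomial.C ⟨_, hS2 (e (a, b) x)⟩ * MvPolynomial.X x
  have hPev : ∀ (z : I i → kk Ω hΩ β') a b, MvPolynomial.aeval z (P a b) =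
      L a b + ∑ x : I i, (algebraMap (K0 Ω hΩ) (kk Ω hΩ β') (e (a, b) x)) * z x := by
    intro z a b
    simp only [P, map_add, map_sum, map_mul, MvPolynomial.aeval_C, MvPolynomial.aeval_X]
    rfl
  have hPY : ∀ a b, MvPolynomial.aeval (fun x : I i => YR ⟨i, x⟩) (P a b) =
      red Ω hΩ β' (Mo a b) := by
    intro a b
    have h7 : red Ω hΩ β' (Yo i (a, b)) =
        ∑ x : I i, algebraMap (K0 Ω hΩ) (kk Ω hΩ β') (e (a, b) x) * YR ⟨i, x⟩ := by
      rw [heo (a, b), map_sum]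
      apply Finset.sum_congr rfl
      intro x _
      rw [map_smul, Algebra.smul_def]
    have h8 : red Ω hΩ β' (Lo a b + Yo i (a, b)) = red Ω hΩ β' (Lo a b) +
        ∑ x : I i, algebraMap (K0 Ω hΩ) (kk Ω hΩ β') (e (a, b) x) * YR ⟨i, x⟩ := by
      rw [map_add, h7]
    rw [hPev]
    exact h8.symm
  have hdet0 : P 0 0 * P 1 1 - P 0 1 * P 1 0 = 0 := by
    apply (algebraicIndependent_iff.mp hS3)
    rw [map_sub, map_mul, map_mul, hPY, hPY, hPY, hPY, ← map_mul, ← map_mul, ← map_sub]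
    have h1 : ((Mo 0 0 * Mo 1 1 - Mo 0 1 * Mo 1 0 : O Ω hΩ β') : Hyperreal) =
        gm (fun n => ((D n).M i).det) := by
      have h0 : ((Mo 0 0 * Mo 1 1 - Mo 0 1 * Mo 1 0 : O Ω hΩ β') : Hyperreal) =
        (Mo 0 0 : Hyperreal) * (Mo 1 1 : Hyperreal) -
          (Mo 0 1 : Hyperreal) * (Mo 1 0 : Hyperreal) := rfl
      rw [h0, hMo, hMo, hMo, hMo]
      rw [← gm_mul, ← gm_mul, sub_eq_add_neg, ← gm_neg, ← gm_add]
      congr 1
      funext n
      rw [Matrix.det_fin_two]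
      ring
    have h2 : gm (fun n => ((D n).M i).det) ∈ O Ω hΩ β' := by
      rw [← h1]
      exact Subtype.mem _
    have h3 : Mo 0 0 * Mo 1 1 - Mo 0 1 * Mo 1 0 = ⟨_, h2⟩ := Subtype.ext h1
    rw [h3, small_iff]
    intro k
    have h4 : ∀ᶠ n in U, k ≤ n :=
      (eventually_ge_atTop k).filter_mono Nat.hyperfilter_le_atTop
    filter_upwards [h4] with n hn
    have h5 := ((D n).det i).le
    have h6 : (D n).H ^ (-((n * ((D n).d + 1) : ℕ) : ℝ)) ≤ (th Ω β' n ^ k)⁻¹ := by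
      rw [Real.rpow_neg (hΩ0 n).le, Real.rpow_natCast]
      apply inv_anti₀ (pow_pos (hth0 n) _)
      have h7 : (D n).H ^ (n * ((D n).d + 1)) = th Ω β' n ^ n := by
        rw [mul_comm, pow_mul]
        rfl
      rw [h7]
      exact pow_le_pow_right₀ (by linarith [two_le_th hΩ β' n]) hn
    calc |((D n).M i).det| * th Ω β' n ^ k ≤ (th Ω β' n ^ k)⁻¹ * th Ω β' n ^ k :=
          mul_le_mul_of_nonneg_right (h5.trans h6) (pow_pos (hth0 n) _).le
      _ = 1 := inv_mul_cancel₀ (pow_pos (hth0 n) _).ne'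
  let e' : I i → Matrix (Fin 2) (Fin 2) (K0 Ω hΩ) := fun x => Matrix.of fun a b => e (a, b) x
  have hsing : ∀ z : I i → K0 Ω hΩ,
      (L + (∑ x, z x • e' x).map (algebraMap (K0 Ω hΩ) (kk Ω hΩ β'))).det = 0 := by
    intro z
    have h1 : ∀ a b, (L + (∑ x, z x • e' x).map (algebraMap (K0 Ω hΩ) (kk Ω hΩ β'))) a b =
        MvPolynomial.aeval (fun x => algebraMap (K0 Ω hΩ) (kk Ω hΩ β') (z x)) (P a b) := by
      intro a b
      rw [hPev, Matrix.add_apply, Matrix.map_apply, Matrix.sum_apply, map_sum]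
      congr 1
      apply Finset.sum_congr rfl
      intro x _
      rw [Matrix.smul_apply, smul_eq_mul, map_mul, mul_comm]
      rfl
    rw [Matrix.det_fin_two, h1, h1, h1, h1, ← map_mul, ← map_mul, ← map_sub, hdet0, map_zero]
  have hne' : ∃ x, e' x ≠ 0 := by
    by_contra hcon
    push Not at hcon
    have h1 : ∀ p, Y i p = 0 := by
      intro p
      rw [he p]
      apply Finset.sum_eq_zero
      intro x _
      have h2 : e p x = 0 := by
        have h3 := congrFun (congrFun (hcon x) p.1) p.2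
        exact h3
      rw [h2, zero_smul]
    have h2 : ∀ᶠ n in U, ∀ p, (D n).near i p = 0 := by
      rw [Filter.eventually_all]
      intro p
      have h3 := h1 p
      simp only [Y] at h3
      rw [← gm_zero, gm_eq_iff] at h3
      exact h3
    obtain ⟨n, hn⟩ := h2.exists
    obtain ⟨p, hp⟩ := (D n).ne i
    exact hp (hn p)
  obtain ⟨x₀, hx₀⟩ := hne'
  obtain ⟨w, hw, hker⟩ := deg L e' hsing x₀ hx₀
  choose α β hα hβ hβ0 hw' using fun a => (w a).2
  have hβ' : ∀ᶠ n in U, ∀ a, β a n ≠ 0 := by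
    rw [Filter.eventually_all]
    exact hβ0
  -- cleared coefficients
  let W : Fin 2 → ℕ → ℤ := fun a n => α a n * β (1 - a) n
  have hWB : ∀ a, Bdd Ω (W a) := fun a => (hα a).mul (hβ _)
  have hW0 : ∀ n, W 0 n = α 0 n * β 1 n := fun n => rfl
  have hW1 : ∀ n, W 1 n = α 1 n * β 0 n := fun n => rfl
  have hWw : ∀ a, gm (fun n => (W a n : ℝ)) =
      gm (fun n => (β 0 n : ℝ) * (β 1 n : ℝ)) * (w a : Hyperreal) := by
    rw [Fin.forall_fin_two]
    constructor
    · rw [hw' 0, ← gm_mul, gm_eq_iff]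
      filter_upwards [hβ'] with n hn
      have h0 : (β 0 n : ℝ) ≠ 0 := by exact_mod_cast hn 0
      rw [hW0]
      push_cast
      field_simp
    · rw [hw' 1, ← gm_mul, gm_eq_iff]
      filter_upwards [hβ'] with n hn
      have h1 : (β 1 n : ℝ) ≠ 0 := by exact_mod_cast hn 1
      rw [hW1]
      push_cast
      field_simp
  have hββO : gm (fun n => (β 0 n : ℝ) * (β 1 n : ℝ)) ∈ O Ω hΩ β' := by
    obtain ⟨d, hd⟩ := (hβ 0).mul (hβ 1)
    apply gm_mem_O hΩ β' _ d
    filter_upwards [hd] with n hn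
    push_cast at hn
    exact hn
  -- a relation of the matrices gives a contradiction
  have hfin : ∀ a b : ℕ → ℤ, Bdd Ω a → Bdd Ω b → ∀ c₀ c₁ : Fin t → ℕ → ℤ,
      (∀ s, Bdd Ω (c₀ s)) → (∀ s, Bdd Ω (c₁ s)) →
      (∀ m : ℕ, ∀ᶠ n in U,
        |(a n : ℝ) * (∑ s, (c₀ s n : ℝ) * (D n).ℓ s) + (b n : ℝ) * (∑ s, (c₁ s n : ℝ) * (D n).ℓ s)| *
          th Ω β' n ^ m ≤ 1) →
      ∀ᶠ n in U, (a n : ℝ) * (∑ s, (c₀ s n : ℝ) * (D n).ℓ s) +
        (b n : ℝ) * (∑ s, (c₁ s n : ℝ) * (D n).ℓ s) = 0 := by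
    intro a b ha hb c₀ c₁ hc₀ hc₁ hsmall
    let k : Fin t → ℕ → ℤ := fun s n => a n * c₀ s n + b n * c₁ s n
    have hk : ∀ s, Bdd Ω (k s) := fun s => (ha.mul (hc₀ s)).add hΩ (hb.mul (hc₁ s))
    obtain ⟨m, hm⟩ := exists_common_bound Finset.univ Ω hΩ k hk
    have hsum : ∀ n, (a n : ℝ) * (∑ s, (c₀ s n : ℝ) * (D n).ℓ s) +
        (b n : ℝ) * (∑ s, (c₁ s n : ℝ) * (D n).ℓ s) = ∑ s, (k s n : ℝ) * (D n).ℓ s := by
      intro n
      rw [Finset.mul_sum, Finset.mul_sum, ← Finset.sum_add_distrib]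
      apply Finset.sum_congr rfl
      intro s _
      simp only [k]
      push_cast
      ring
    have h4 : ∀ᶠ n in U, m ≤ n :=
      (eventually_ge_atTop m).filter_mono Nat.hyperfilter_le_atTop
    filter_upwards [hsmall 1, hm, h4] with n h1 h2 h3
    rw [hsum] at h1 ⊢
    apply (D n).lin (fun s => k s n)
    · intro s
      refine (h2 s (Finset.mem_univ _)).trans ?_
      rw [Real.rpow_natCast]
      exact pow_le_pow_right₀ (by linarith [hΩ n]) h3
    · have h8 : 0 < (D n).H ^ (D n).d := pow_pos (hΩ0 n) _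
      have h7 : (D n).H ^ (D n).d < th Ω β' n ^ 1 := by
        rw [pow_one]
        change (D n).H ^ (D n).d < (D n).H ^ ((D n).d + 1)
        have h10 : 2 ≤ (D n).H := hΩ n
        exact pow_lt_pow_right₀ (by linarith) (Nat.lt_succ_self _)
      have h9 : 0 < th Ω β' n ^ 1 := h8.trans h7
      rw [Real.rpow_neg (hΩ0 n).le, Real.rpow_natCast]
      calc |∑ s, (k s n : ℝ) * (D n).ℓ s| ≤ (th Ω β' n ^ 1)⁻¹ := by
            rw [← one_div, le_div_iff₀ h9]
            exact h1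
        _ < ((D n).H ^ (D n).d)⁻¹ := inv_strictAnti₀ h8 h7
  have hWne : ¬ ∀ᶠ n in U, ∀ a, W a n = 0 := by
    intro hcon
    apply hw
    funext a
    apply Subtype.ext
    rw [hw' a]
    change _ = (0 : Hyperreal)
    rw [← gm_zero, gm_eq_iff]
    filter_upwards [hcon, hβ'] with n h1 h2
    have h3 := (mul_eq_zero.mp (h1 a)).resolve_right (h2 _)
    rw [h3]
    simp
  rcases hker with ⟨h1, h2⟩ | ⟨h1, h2⟩
  · -- rows
    have hnear : ∀ b, ∀ᶠ n in U, (W 0 n : ℝ) * (D n).near i (0, b) +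
        (W 1 n : ℝ) * (D n).near i (1, b) = 0 := by
      intro b
      rw [← gm_eq_iff (fun n => (W 0 n : ℝ) * (D n).near i (0, b) +
        (W 1 n : ℝ) * (D n).near i (1, b)) (fun _ => 0), gm_zero, gm_add, gm_mul, gm_mul, hWw, hWw]
      have h5 : ∀ x, ∑ a, (w a : Hyperreal) * (e (a, b) x : Hyperreal) = 0 := by
        intro x
        have h6 : ∑ a, w a * e (a, b) x = 0 := congrFun (h2 x) b
        have h7 := congrArg (algebraMap (K0 Ω hΩ) Hyperreal) h6
        rw [map_sum, map_zero] at h7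
        rw [← h7]
        exact Finset.sum_congr rfl (fun a _ => by rw [map_mul]; rfl)
      have h6 : (w 0 : Hyperreal) * Y i (0, b) + (w 1 : Hyperreal) * Y i (1, b) = 0 := by
        rw [he (0, b), he (1, b), Finset.mul_sum, Finset.mul_sum, ← Finset.sum_add_distrib]
        apply Finset.sum_eq_zero
        intro x _
        have h7 := h5 x
        rw [Fin.sum_univ_two] at h7
        have h8 : (w 0 : Hyperreal) * (e (0, b) x • Y i x) + (w 1 : Hyperreal) * (e (1, b) x • Y i x) =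
            ((w 0 : Hyperreal) * (e (0, b) x : Hyperreal) +
              (w 1 : Hyperreal) * (e (1, b) x : Hyperreal)) * Y i x := by
          have h9 : ∀ c : K0 Ω hΩ, c • Y i x = (c : Hyperreal) * Y i x := fun c => rfl
          rw [h9, h9]
          ring
        rw [h8, h7, zero_mul]
      have h7 : gm (fun n => (β 0 n : ℝ) * (β 1 n : ℝ)) * (w 0 : Hyperreal) *
          gm (fun n => (D n).near i (0, b)) +
          gm (fun n => (β 0 n : ℝ) * (β 1 n : ℝ)) * (w 1 : Hyperreal) *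
          gm (fun n => (D n).near i (1, b)) =
          gm (fun n => (β 0 n : ℝ) * (β 1 n : ℝ)) *
            ((w 0 : Hyperreal) * Y i (0, b) + (w 1 : Hyperreal) * Y i (1, b)) := by
        simp only [Y]
        ring
      rw [h7, h6, mul_zero]
    have hpure : ∀ b, ∀ᶠ n in U, (W 0 n : ℝ) * (∑ s, ((D n).c i 0 b s : ℝ) * (D n).ℓ s) +
        (W 1 n : ℝ) * (∑ s, ((D n).c i 1 b s : ℝ) * (D n).ℓ s) = 0 := by
      intro b
      apply hfin (W 0) (W 1) (hWB 0) (hWB 1) (fun s n => (D n).c i 0 b s)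
        (fun s n => (D n).c i 1 b s) (fun s => hcB i 0 b s) (fun s => hcB i 1 b s)
      have h5 : red Ω hΩ β' (w 0 • Lo 0 b + w 1 • Lo 1 b) = 0 := by
        have h6 : ∑ a, algebraMap (K0 Ω hΩ) (kk Ω hΩ β') (w a) * L a b = 0 := congrFun h1 b
        rw [Fin.sum_univ_two] at h6
        rw [map_add, map_smul, map_smul, Algebra.smul_def, Algebra.smul_def]
        exact h6
      let z : O Ω hΩ β' := ⟨_, hββO⟩ * (w 0 • Lo 0 b + w 1 • Lo 1 b)
      have hz0 : red Ω hΩ β' z = 0 := by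
        simp only [z]
        rw [map_mul, h5, mul_zero]
      have hz1 : (z : Hyperreal) = gm (fun n =>
          (W 0 n : ℝ) * (∑ s, ((D n).c i 0 b s : ℝ) * (D n).ℓ s) +
            (W 1 n : ℝ) * (∑ s, ((D n).c i 1 b s : ℝ) * (D n).ℓ s)) := by
        rw [gm_add, gm_mul, gm_mul, hWw, hWw, ← hLoval, ← hLoval]
        simp only [z]
        rw [Subring.coe_mul, Subring.coe_add]
        have h9 : ∀ (c : K0 Ω hΩ) (y : O Ω hΩ β'), ((c • y : O Ω hΩ β') : Hyperreal) =
          (c : Hyperreal) * (y : Hyperreal) := fun c y => rfl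
        rw [h9, h9]
        ring
      have hz2 : gm (fun n =>
          (W 0 n : ℝ) * (∑ s, ((D n).c i 0 b s : ℝ) * (D n).ℓ s) +
            (W 1 n : ℝ) * (∑ s, ((D n).c i 1 b s : ℝ) * (D n).ℓ s)) ∈ O Ω hΩ β' := by
        rw [← hz1]
        exact z.2
      rw [← small_iff _ hz2]
      have h6 : (⟨_, hz2⟩ : O Ω hΩ β') = z := Subtype.ext hz1.symm
      rw [h6]
      exact hz0
    apply hWne
    have hnear' : ∀ᶠ n in U, ∀ b, (W 0 n : ℝ) * (D n).near i (0, b) +
        (W 1 n : ℝ) * (D n).near i (1, b) = 0 := by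
      rw [Filter.eventually_all]
      exact hnear
    have hpure' : ∀ᶠ n in U, ∀ b, (W 0 n : ℝ) * (∑ s, ((D n).c i 0 b s : ℝ) * (D n).ℓ s) +
        (W 1 n : ℝ) * (∑ s, ((D n).c i 1 b s : ℝ) * (D n).ℓ s) = 0 := by
      rw [Filter.eventually_all]
      exact hpure
    filter_upwards [hnear', hpure'] with n h3 h4
    have h5 := (D n).row i (W 0 n : ℚ) (W 1 n : ℚ) (by
      intro b
      rw [(D n).hM, (D n).hM]
      have h6 := h3 b
      have h7 := h4 b
      simp only [Syst.near] at h6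
      push_cast
      linear_combination h6 + h7)
    intro a
    fin_cases a
    · exact_mod_cast h5.1
    · exact_mod_cast h5.2
  · -- columns
    have hnear : ∀ a, ∀ᶠ n in U, (W 0 n : ℝ) * (D n).near i (a, 0) +
        (W 1 n : ℝ) * (D n).near i (a, 1) = 0 := by
      intro a
      rw [← gm_eq_iff (fun n => (W 0 n : ℝ) * (D n).near i (a, 0) +
        (W 1 n : ℝ) * (D n).near i (a, 1)) (fun _ => 0), gm_zero, gm_add, gm_mul, gm_mul, hWw, hWw]
      have h5 : ∀ x, ∑ b, (e (a, b) x : Hyperreal) * (w b : Hyperreal) = 0 := by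
        intro x
        have h6 : ∑ b, e (a, b) x * w b = 0 := congrFun (h2 x) a
        have h7 := congrArg (algebraMap (K0 Ω hΩ) Hyperreal) h6
        rw [map_sum, map_zero] at h7
        rw [← h7]
        exact Finset.sum_congr rfl (fun b _ => by rw [map_mul]; rfl)
      have h6 : (w 0 : Hyperreal) * Y i (a, 0) + (w 1 : Hyperreal) * Y i (a, 1) = 0 := by
        rw [he (a, 0), he (a, 1), Finset.mul_sum, Finset.mul_sum, ← Finset.sum_add_distrib]
        apply Finset.sum_eq_zero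
        intro x _
        have h7 := h5 x
        rw [Fin.sum_univ_two] at h7
        have h8 : (w 0 : Hyperreal) * (e (a, 0) x • Y i x) + (w 1 : Hyperreal) * (e (a, 1) x • Y i x) =
            ((e (a, 0) x : Hyperreal) * (w 0 : Hyperreal) +
              (e (a, 1) x : Hyperreal) * (w 1 : Hyperreal)) * Y i x := by
          have h9 : ∀ c : K0 Ω hΩ, c • Y i x = (c : Hyperreal) * Y i x := fun c => rfl
          rw [h9, h9]
          ring
        rw [h8, h7, zero_mul]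
      have h7 : gm (fun n => (β 0 n : ℝ) * (β 1 n : ℝ)) * (w 0 : Hyperreal) *
          gm (fun n => (D n).near i (a, 0)) +
          gm (fun n => (β 0 n : ℝ) * (β 1 n : ℝ)) * (w 1 : Hyperreal) *
          gm (fun n => (D n).near i (a, 1)) =
          gm (fun n => (β 0 n : ℝ) * (β 1 n : ℝ)) *
            ((w 0 : Hyperreal) * Y i (a, 0) + (w 1 : Hyperreal) * Y i (a, 1)) := by
        simp only [Y]
        ring
      rw [h7, h6, mul_zero]
    have hpure : ∀ a, ∀ᶠ n in U, (W 0 n : ℝ) * (∑ s, ((D n).c i a 0 s : ℝ) * (D n).ℓ s) +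
        (W 1 n : ℝ) * (∑ s, ((D n).c i a 1 s : ℝ) * (D n).ℓ s) = 0 := by
      intro a
      apply hfin (W 0) (W 1) (hWB 0) (hWB 1) (fun s n => (D n).c i a 0 s)
        (fun s n => (D n).c i a 1 s) (fun s => hcB i a 0 s) (fun s => hcB i a 1 s)
      have h5 : red Ω hΩ β' (w 0 • Lo a 0 + w 1 • Lo a 1) = 0 := by
        have h6 : ∑ b, L a b * algebraMap (K0 Ω hΩ) (kk Ω hΩ β') (w b) = 0 := congrFun h1 a
        rw [Fin.sum_univ_two] at h6
        rw [map_add, map_smul, map_smul, Algebra.smul_def, Algebra.smul_def, ← h6]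
        simp only [L]
        ring
      let z : O Ω hΩ β' := ⟨_, hββO⟩ * (w 0 • Lo a 0 + w 1 • Lo a 1)
      have hz0 : red Ω hΩ β' z = 0 := by
        simp only [z]
        rw [map_mul, h5, mul_zero]
      have hz1 : (z : Hyperreal) = gm (fun n =>
          (W 0 n : ℝ) * (∑ s, ((D n).c i a 0 s : ℝ) * (D n).ℓ s) +
            (W 1 n : ℝ) * (∑ s, ((D n).c i a 1 s : ℝ) * (D n).ℓ s)) := by
        rw [gm_add, gm_mul, gm_mul, hWw, hWw, ← hLoval, ← hLoval]
        simp only [z]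
        rw [Subring.coe_mul, Subring.coe_add]
        have h9 : ∀ (c : K0 Ω hΩ) (y : O Ω hΩ β'), ((c • y : O Ω hΩ β') : Hyperreal) =
          (c : Hyperreal) * (y : Hyperreal) := fun c y => rfl
        rw [h9, h9]
        ring
      have hz2 : gm (fun n =>
          (W 0 n : ℝ) * (∑ s, ((D n).c i a 0 s : ℝ) * (D n).ℓ s) +
            (W 1 n : ℝ) * (∑ s, ((D n).c i a 1 s : ℝ) * (D n).ℓ s)) ∈ O Ω hΩ β' := by
        rw [← hz1]
        exact z.2
      rw [← small_iff _ hz2]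
      have h6 : (⟨_, hz2⟩ : O Ω hΩ β') = z := Subtype.ext hz1.symm
      rw [h6]
      exact hz0
    apply hWne
    have hnear' : ∀ᶠ n in U, ∀ a, (W 0 n : ℝ) * (D n).near i (a, 0) +
        (W 1 n : ℝ) * (D n).near i (a, 1) = 0 := by
      rw [Filter.eventually_all]
      exact hnear
    have hpure' : ∀ᶠ n in U, ∀ a, (W 0 n : ℝ) * (∑ s, ((D n).c i a 0 s : ℝ) * (D n).ℓ s) +
        (W 1 n : ℝ) * (∑ s, ((D n).c i a 1 s : ℝ) * (D n).ℓ s) = 0 := by
      rw [Filter.eventually_all]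
      exact hpure
    filter_upwards [hnear', hpure'] with n h3 h4
    have h5 := (D n).col i (W 0 n : ℚ) (W 1 n : ℚ) (by
      intro a
      rw [Matrix.transpose_apply, Matrix.transpose_apply, (D n).hM, (D n).hM]
      have h6 := h3 a
      have h7 := h4 a
      simp only [Syst.near] at h6
      push_cast
      linear_combination h6 + h7)
    intro a
    fin_cases a
    · exact_mod_cast h5.1
    · exact_mod_cast h5.2

theorem indep_core_approx (t R : ℕ) (δ A : ℝ) (hδ : 0 < δ) :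
    ∃ E : ℕ, ∀ d : ℕ, ∃ C H₀ : ℝ, ∀ H : ℝ, H₀ ≤ H → ∀ (ℓ : Fin t → ℝ) (G : Fin R → ℚ)
      (c : Fin (t + 1) → Fin 2 → Fin 2 → Fin t → ℤ) (m : Fin (t + 1) → Fin 2 → Fin 2 → Fin R → ℤ)
      (M : Fin (t + 1) → Matrix (Fin 2) (Fin 2) ℝ),
      (∀ k, 0 < G k) → (∀ k, ((G k).den : ℝ) ≤ H) → (∀ k, |(G k : ℝ) - 1| ≤ H ^ (-δ)) →
      (∀ s, |ℓ s| ≤ H ^ d) →
      (∀ i a b s, |(c i a b s : ℝ)| ≤ H ^ A) → (∀ i a b k, |(m i a b k : ℝ)| ≤ H ^ A) →
      (∀ i a b, M i a b = ∑ s, (c i a b s : ℝ) * ℓ s + ∑ k, (m i a b k : ℝ) * Real.log (G k)) →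
      (∀ i, RowsIndep (M i)) → (∀ i, RowsIndep (M i).transpose) →
      (∀ i, |(M i).det| < H ^ (-C)) →
      (∀ i, ∃ a b, ∑ k, (m i a b k : ℝ) * Real.log (G k) ≠ 0) →
      (∃ N : Fin (t + 1) → Fin 2 × Fin 2 → ℤ,
        ∑ i, ∑ p, (N i p : ℝ) * ∑ k, (m i p.1 p.2 k : ℝ) * Real.log (G k) = 0 ∧
        ∃ i, ∑ p, (N i p : ℝ) * ∑ k, (m i p.1 p.2 k : ℝ) * Real.log (G k) ≠ 0) ∨
      ∃ k : Fin t → ℤ, (∀ s, |(k s : ℝ)| ≤ H ^ (E : ℝ)) ∧ ∑ s, (k s : ℝ) * ℓ s ≠ 0 ∧
        |∑ s, (k s : ℝ) * ℓ s| < H ^ (-(d : ℝ)) := by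
  by_contra hcon
  push Not at hcon
  have hseq : ∀ n : ℕ, ∃ D : Syst t R δ A n, (n:ℝ) + 2 ≤ D.H := by
    intro n
    obtain ⟨d, hd⟩ := hcon n
    obtain ⟨H, h1, ℓ, G, c, m, M, h2, h3, h4, h4', h5, h6, h7, h8, h9, h10, h11, h12, h13⟩ :=
      hd ((n * (d + 1) : ℕ) : ℝ) ((n : ℝ) + 2)
    refine ⟨⟨H, d, ℓ, G, c, m, M, h2, h3, h4, h4', h5, h6, h7, h8, h9, h10, fun i => ?_, h12, ?_⟩,
      h1⟩
    · obtain ⟨a, b, hab⟩ := h11 i
      exact ⟨(a, b), hab⟩
    · intro k hk1 hk2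
      by_contra h0
      exact absurd hk2 (not_lt.mpr (h13 k hk1 h0))
  choose D hD using hseq
  exact sys_false t R δ A hδ D hD

end Pool.Agent.ExApx
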