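import Mathlib
import Pool.Agent.ExScale.ManyScales
import Pool.Agent.ExApx.CoreR

/-!
# At most `t` independent nearly singular matrices over `t` bases, at all scales
-/

set_option autoImplicit false

namespace Pool.Agent.ExApx

open Filter Topology Pool.Agent.OneClass Pool.Agent.ExScale

theorem many_approx (t r : ℕ) (δ : ℝ) (hδ : 0 < δ) :
    ∃ κ : ℝ, ∀ A B : ℝ, ∃ E : ℝ, ∀ D : ℝ, ∃ C H₀ : ℝ,
      ∀ (ℓ : Fin t → ℝ) (H : Fin (t + 1) → ℝ)
      (g : Fin (t + 1) → Fin r → ℚ) (c : Fin (t + 1) → Fin 2 → Fin 2 → Fin t → ℤ)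
      (m : Fin (t + 1) → Fin 2 → Fin 2 → Fin r → ℤ) (M : Fin (t + 1) → Matrix (Fin 2) (Fin 2) ℝ),
      (∀ i, H₀ ≤ H i) → (∀ i j, H i ≤ H j ^ B) →
      (∀ i k, 0 < g i k) → (∀ i k, ((g i k).den : ℝ) ≤ H i) →
      (∀ i k, |(g i k : ℝ) - 1| ≤ H i ^ (-δ)) →
      (∀ i s, |ℓ s| ≤ H i ^ D) →
      (∀ i a b s, |(c i a b s : ℝ)| ≤ H i ^ A) → (∀ i a b k, |(m i a b k : ℝ)| ≤ H i ^ A) →
      (∀ i a b, M i a b =
        ∑ s, (c i a b s : ℝ) * ℓ s + ∑ k, (m i a b k : ℝ) * Real.log (g i k)) →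
      (∀ i, RowsIndep (M i)) → (∀ i, RowsIndep (M i).transpose) →
      (∀ i, |(M i).det| < H i ^ (-C)) →
      (¬ ∃ k : Fin t → ℤ, ∑ s, (k s : ℝ) * ℓ s ≠ 0 ∧
        ∀ i, (∀ s, |(k s : ℝ)| ≤ H i ^ E) ∧ |∑ s, (k s : ℝ) * ℓ s| < H i ^ (-D)) →
      (∀ i, ∃ a b, ∑ k, (m i a b k : ℝ) * Real.log (g i k) ≠ 0) →
      (∃ N : Fin (t + 1) → Fin 2 → Fin 2 → ℤ,
        ∑ i, ∑ a, ∑ b, (N i a b : ℝ) * ∑ k, (m i a b k : ℝ) * Real.log (g i k) = 0 ∧
        ∃ i, ∑ a, ∑ b, (N i a b : ℝ) * ∑ k, (m i a b k : ℝ) * Real.log (g i k) ≠ 0) ∧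
      ∃ i j, i ≠ j ∧ H i ≤ H j ∧ H j < H i ^ κ := by
  classical
  obtain ⟨κ, hκ1, hds⟩ := direct_scales' t r δ hδ
  refine ⟨κ, fun A B => ?_⟩
  obtain ⟨H₁, hH₁⟩ := hds B
  set A₀ : ℝ := max A 0 with hA₀
  have hA₀0 : 0 ≤ A₀ := le_max_right _ _
  set B₀ : ℝ := max B 1 with hB₀
  have hB₀1 : 1 ≤ B₀ := le_max_right _ _
  have hδ' : 0 < δ / B₀ := by positivity
  obtain ⟨E₀, hE₀⟩ := indep_core_approx t ((t + 1) * r) (δ / B₀) A₀ hδ'
  refine ⟨B₀ * E₀, fun D => ?_⟩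
  obtain ⟨d, hd⟩ := exists_nat_ge D
  obtain ⟨C₀, H₂, hH₂⟩ := hE₀ d
  refine ⟨B₀ * max C₀ 0, max (max H₁ H₂) 1,
    fun ℓ H g c m M hH hHB hg hden hclose hℓ hc hm hM hrow hcol hdet hlin hne => ?_⟩
  have hHH₁ : ∀ i, H₁ ≤ H i := fun i => ((le_max_left _ _).trans (le_max_left _ _)).trans (hH i)
  have hHH₂ : ∀ i, H₂ ≤ H i := fun i => ((le_max_right _ _).trans (le_max_left _ _)).trans (hH i)
  have hH1 : ∀ i, 1 ≤ H i := fun i => (le_max_right _ _).trans (hH i)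
  have hHpos : ∀ i, 0 < H i := fun i => by linarith [hH1 i]
  obtain ⟨i₀, -, hi₀⟩ := Finset.exists_max_image Finset.univ H ⟨0, Finset.mem_univ _⟩
  have hmax : ∀ i, H i ≤ H i₀ := fun i => hi₀ i (Finset.mem_univ _)
  have hpos0 : 0 < H i₀ := by linarith [hH1 i₀]
  have hmaxB : ∀ i, H i₀ ≤ H i ^ B₀ := fun i =>
    (hHB i₀ i).trans (Real.rpow_le_rpow_of_exponent_le (hH1 i) (le_max_left _ _))
  have hcl : ∀ i, H i ^ (-δ) ≤ H i₀ ^ (-(δ / B₀)) := by
    intro i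
    have h1 : H i₀ ≤ H i ^ B₀ := hmaxB i
    have h2 : (H i ^ B₀) ^ (-(δ / B₀)) ≤ H i₀ ^ (-(δ / B₀)) :=
      Real.rpow_le_rpow_of_nonpos hpos0 h1 (by linarith)
    rw [← Real.rpow_mul (by linarith [hH1 i])] at h2
    have h3 : B₀ * -(δ / B₀) = -δ := by
      have : B₀ ≠ 0 := by positivity
      field_simp
    rwa [h3] at h2
  have hAA : ∀ i, H i ^ A ≤ H i₀ ^ A₀ := by
    intro i
    have h1 : H i ^ A ≤ H i ^ A₀ := Real.rpow_le_rpow_of_exponent_le (hH1 i) (le_max_left _ _)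
    exact h1.trans (Real.rpow_le_rpow (by linarith [hH1 i]) (hmax i) hA₀0)
  have hdet' : ∀ i, |(M i).det| < H i₀ ^ (-C₀) := by
    intro i
    have h1 : H i ^ (-(B₀ * max C₀ 0)) ≤ H i₀ ^ (-(max C₀ 0)) := by
      have h2 : (H i ^ B₀) ^ (-(max C₀ 0)) ≤ H i₀ ^ (-(max C₀ 0)) :=
        Real.rpow_le_rpow_of_nonpos hpos0 (hmaxB i) (by linarith [le_max_right C₀ 0])
      rw [← Real.rpow_mul (by linarith [hH1 i])] at h2
      rwa [show B₀ * -(max C₀ 0) = -(B₀ * max C₀ 0) by ring] at h2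
    have h3 : H i₀ ^ (-(max C₀ 0)) ≤ H i₀ ^ (-C₀) :=
      Real.rpow_le_rpow_of_exponent_le (hH1 i₀) (by linarith [le_max_left C₀ 0])
    exact (hdet i).trans_le (h1.trans h3)
  have hℓ' : ∀ s, |ℓ s| ≤ H i₀ ^ d := by
    intro s
    refine (hℓ i₀ s).trans ?_
    rw [← Real.rpow_natCast]
    exact Real.rpow_le_rpow_of_exponent_le (hH1 i₀) hd
  -- flattening
  let G : Fin ((t + 1) * r) → ℚ := fun p => g (finProdFinEquiv.symm p).1 (finProdFinEquiv.symm p).2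
  let m' : Fin (t + 1) → Fin 2 → Fin 2 → Fin ((t + 1) * r) → ℤ := fun i a b p =>
    if (finProdFinEquiv.symm p).1 = i then m i a b (finProdFinEquiv.symm p).2 else 0
  have hflat : ∀ i a b, ∑ p, (m' i a b p : ℝ) * Real.log (G p) =
      ∑ k, (m i a b k : ℝ) * Real.log (g i k) := by
    intro i a b
    rw [← Equiv.sum_comp finProdFinEquiv (fun p => (m' i a b p : ℝ) * Real.log (G p)),
      Fintype.sum_prod_type]
    rw [Finset.sum_eq_single i]
    · apply Finset.sum_congr rfl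
      intro k _
      simp only [m', G, Equiv.symm_apply_apply, if_true]
    · intro j _ hj
      apply Finset.sum_eq_zero
      intro k _
      simp only [m', Equiv.symm_apply_apply, if_neg hj, Int.cast_zero, zero_mul]
    · intro h
      exact absurd (Finset.mem_univ _) h
  rcases hH₂ (H i₀) (hHH₂ i₀) ℓ G c m' M (fun p => hg _ _)
    (fun p => (hden _ _).trans (hmax _)) (fun p => (hclose _ _).trans (hcl _)) hℓ'
    (fun i a b s => (hc i a b s).trans (hAA i))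
    (fun i a b p => by
      simp only [m']
      split_ifs
      · exact (hm i a b _).trans (hAA i)
      · simp only [Int.cast_zero, abs_zero]
        exact Real.rpow_nonneg hpos0.le _)
    (fun i a b => by rw [hM, hflat]) hrow hcol hdet'
    (fun i => by
      obtain ⟨a, b, hab⟩ := hne i
      exact ⟨a, b, by rw [hflat]; exact hab⟩) with ⟨N, hN0, hN1⟩ | ⟨k, hk1, hk2, hk3⟩
  · simp only [hflat, Fintype.sum_prod_type] at hN0 hN1
    refine ⟨⟨fun i a b => N i (a, b), hN0, hN1⟩, ?_⟩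
    by_contra hcon
    push Not at hcon
    obtain ⟨i, hi⟩ := hN1
    apply hi
    have hE : ∀ i, ∑ a, ∑ b, (N i (a, b) : ℝ) * ∑ k, (m i a b k : ℝ) * Real.log (g i k) =
        ∑ k, ((∑ a, ∑ b, N i (a, b) * m i a b k : ℤ) : ℝ) * Real.log (g i k) := by
      intro i
      simp only [Fin.sum_univ_two]
      push_cast
      simp only [Finset.mul_sum, ← Finset.sum_add_distrib]
      apply Finset.sum_congr rfl
      intro k _
      ring
    have h1 := hH₁ H hHH₁ hcon hHB g hg hden hclose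
      (fun i k => ∑ a, ∑ b, N i (a, b) * m i a b k) (by
        rw [← hN0]
        exact Finset.sum_congr rfl (fun i _ => (hE i).symm)) i
    rw [hE]
    exact h1
  · exfalso
    apply hlin
    refine ⟨k, hk2, fun i => ⟨fun s => ?_, ?_⟩⟩
    · refine (hk1 s).trans ?_
      have h2 : H i₀ ^ (E₀ : ℝ) ≤ (H i ^ B₀) ^ (E₀ : ℝ) :=
        Real.rpow_le_rpow hpos0.le (hmaxB i) (Nat.cast_nonneg _)
      rwa [← Real.rpow_mul (by linarith [hH1 i])] at h2
    · refine hk3.trans_le ?_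
      have h2 : H i₀ ^ (-(d : ℝ)) ≤ H i ^ (-(d : ℝ)) :=
        Real.rpow_le_rpow_of_nonpos (hHpos i) (hmax i) (by
          have : (0 : ℝ) ≤ d := Nat.cast_nonneg _
          linarith)
      refine h2.trans ?_
      exact Real.rpow_le_rpow_of_exponent_le (hH1 i) (by linarith)

end Pool.Agent.ExApx
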